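import Pool.Agent.R246.SK.Defs

/-!
Project SK, part FT2: synthesis of smooth periodic functions (helper209).
-/

set_option autoImplicit false

open scoped ContDiff ComplexConjugate
open Filter MeasureTheory

namespace Pool.Agent.R209.SK

open Pool.Agent.R246.SK

lemma ee_hasDerivAt (n : ℤ) (t : ℝ) : HasDerivAt (ee n) (Complex.I * n * ee n t) t := by
  have h1 : HasDerivAt (fun t : ℝ => Complex.I * (n : ℂ) * (t : ℂ)) (Complex.I * n * 1) t :=
    (Complex.ofRealCLM.hasDerivAt (x := t)).const_mul (Complex.I * (n : ℂ))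
  have h2 := h1.cexp
  rw [mul_one] at h2
  rw [mul_comm]
  exact h2

lemma ee_norm (n : ℤ) (t : ℝ) : ‖ee n t‖ = 1 := by
  unfold ee
  rw [Complex.norm_exp]
  simp

lemma ee_cont (n : ℤ) : Continuous (ee n) :=
  continuous_iff_continuousAt.2 fun t => (ee_hasDerivAt n t).continuousAt

lemma ee_per (n : ℤ) (t : ℝ) : ee n (t + 2 * Real.pi) = ee n t := by
  unfold ee
  have h : Complex.I * (n : ℂ) * ((t + 2 * Real.pi : ℝ) : ℂ) =
      Complex.I * (n : ℂ) * (t : ℂ) + (n : ℂ) * (2 * Real.pi * Complex.I) := by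
    push_cast
    ring
  rw [h, Complex.exp_add, Complex.exp_int_mul_two_pi_mul_I, mul_one]

lemma ee_iter (c : ℂ) (n : ℤ) (k : ℕ) :
    iteratedDeriv k (fun t => c * ee n t) = fun t => c * (Complex.I * n) ^ k * ee n t := by
  induction k with
  | zero => funext t; rw [iteratedDeriv_zero, pow_zero, mul_one]
  | succ k ih =>
    funext t
    rw [iteratedDeriv_succ, ih, ((ee_hasDerivAt n t).const_mul _).deriv]
    ring

lemma ee_smooth (n : ℤ) : ContDiff ℝ ∞ (ee n) := by
  unfold ee
  exact (contDiff_const.mul Complex.ofRealCLM.contDiff).cexp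

lemma sum_inv_sq : Summable fun n : ℤ => 1 / (1 + |(n : ℝ)|) ^ 2 := by
  have h1 : Summable fun n : ℕ => 1 / (1 + (n : ℝ)) ^ 2 := by
    have h2 := (summable_nat_add_iff 1).2 (Real.summable_one_div_nat_pow.2 one_lt_two)
    refine h2.congr fun n => ?_
    push_cast
    rw [add_comm]
  refine Summable.of_nat_of_neg ?_ ?_
  · refine h1.congr fun n => ?_
    simp
  · refine h1.congr fun n => ?_
    simp

lemma rd_summable {c : ℤ → ℂ} (hc : RD c) (k : ℕ) :
    Summable fun n : ℤ => ‖c n‖ * (1 + |(n : ℝ)|) ^ k := by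
  obtain ⟨C, hC⟩ := hc (k + 2)
  refine Summable.of_nonneg_of_le (fun n => by positivity) (fun n => ?_) (sum_inv_sq.mul_left C)
  have h1 : 0 < 1 + |(n : ℝ)| := by positivity
  rw [mul_one_div, le_div_iff₀ (by positivity), mul_assoc, ← pow_add]
  exact hC n

lemma int_ee (m n : ℤ) (c : ℂ) :
    ∫ t in (0 : ℝ)..(2 * Real.pi), c * ee m t * ee (-n) t =
      if m = n then ((2 * Real.pi : ℝ) : ℂ) * c else 0 := by
  have h1 : ∀ t : ℝ, c * ee m t * ee (-n) t =
      c * Complex.exp (Complex.I * ((m : ℂ) - n) * t) := by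
    intro t
    unfold ee
    rw [mul_assoc, ← Complex.exp_add]
    congr 2
    push_cast
    ring
  simp_rw [h1]
  rw [intervalIntegral.integral_const_mul]
  by_cases h : m = n
  · subst h
    rw [if_pos rfl, sub_self, mul_zero]
    simp [mul_comm]
  · rw [if_neg h]
    have h2 : Complex.I * ((m : ℂ) - n) ≠ 0 := by
      refine mul_ne_zero Complex.I_ne_zero (sub_ne_zero.2 ?_)
      exact_mod_cast h
    rw [integral_exp_mul_complex h2]
    have h3 : Complex.I * ((m : ℂ) - n) * ((2 * Real.pi : ℝ) : ℂ) =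
        ((m - n : ℤ) : ℂ) * (2 * Real.pi * Complex.I) := by
      push_cast
      ring
    rw [h3, Complex.exp_int_mul_two_pi_mul_I]
    simp

theorem s_ft2 : S_FT2 := by
  intro c hc
  have hsum0 : Summable fun n : ℤ => ‖c n‖ := by
    refine (rd_summable hc 0).congr fun n => ?_
    rw [pow_zero, mul_one]
  refine ⟨⟨?_, fun t => ?_⟩, fun n => ?_⟩
  · refine contDiff_tsum (v := fun k n => ‖c n‖ * (1 + |(n : ℝ)|) ^ k) (fun n => ?_)
      (fun k _ => rd_summable hc k) fun k n x _ => ?_
    · exact contDiff_const.mul (ee_smooth n)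
    · rw [norm_iteratedFDeriv_eq_norm_iteratedDeriv, ee_iter, norm_mul, norm_mul, norm_pow,
        norm_mul, Complex.norm_I, one_mul, ee_norm, mul_one, Complex.norm_intCast]
      refine mul_le_mul_of_nonneg_left (pow_le_pow_left₀ (abs_nonneg _) ?_ k) (norm_nonneg _)
      linarith
  · beta_reduce
    exact tsum_congr fun n => by rw [ee_per]
  · have hcont : ∀ m : ℤ, Continuous fun t : ℝ => c m * ee m t * ee (-n) t := fun m =>
      (continuous_const.mul (ee_cont m)).mul (ee_cont (-n))
    have h1 := intervalIntegral.hasSum_intervalIntegral_of_summable_norm (a := 0) (b := 2 * Real.pi)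
      (f := fun m : ℤ => (⟨fun t : ℝ => c m * ee m t * ee (-n) t, hcont m⟩ : C(ℝ, ℂ))) (by
        refine Summable.of_nonneg_of_le (fun m => norm_nonneg _) (fun m => ?_) hsum0
        rw [ContinuousMap.norm_le _ (norm_nonneg _)]
        intro x
        simp only [ContinuousMap.restrict_apply, ContinuousMap.coe_mk]
        rw [norm_mul, norm_mul, ee_norm, ee_norm, mul_one, mul_one])
    simp only [ContinuousMap.coe_mk] at h1
    have h2 : (fun m : ℤ => ∫ t in (0 : ℝ)..(2 * Real.pi), c m * ee m t * ee (-n) t) =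
        fun m => if m = n then ((2 * Real.pi : ℝ) : ℂ) * c n else 0 := by
      funext m
      rw [int_ee]
      by_cases h : m = n
      · rw [if_pos h, if_pos h, h]
      · rw [if_neg h, if_neg h]
    rw [h2] at h1
    have h3 := h1.unique (hasSum_ite_eq n (((2 * Real.pi : ℝ) : ℂ) * c n))
    unfold fc
    have h4 : ∫ t in (0 : ℝ)..(2 * Real.pi), (∑' m : ℤ, c m * ee m t) * ee (-n) t =
        ∫ t in (0 : ℝ)..(2 * Real.pi), ∑' m : ℤ, c m * ee m t * ee (-n) t := by
      refine intervalIntegral.integral_congr fun t _ => ?_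
      exact tsum_mul_right.symm
    rw [h4, h3, ← mul_assoc, ← Complex.ofReal_mul]
    have h5 : 1 / (2 * Real.pi) * (2 * Real.pi) = 1 := by
      have := Real.pi_ne_zero
      field_simp
    rw [h5, Complex.ofReal_one, one_mul]

end Pool.Agent.R209.SK
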